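import Mathlib
import Pool.Agent.Lib.MP035d7c.Signs
import Pool.Agent.Lib.MP035d7c.Blocks

open Filter Topology MeasureTheory
open scoped ENNReal NNReal MeasureTheory Classical

namespace Pool.Agent.Results.MP_035d7c_an.FullDim

open Pool.Agent.Lib.MP035d7c

/-- The space of sign sequences.  The entry `val i` (a unit of the integers, that is `1` or `-1`)
is the sign with index `i + 1`, so the usual index set `n ≥ 1` corresponds to `i = n - 1`. -/
@[ext] structure Omega where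
  val : ℕ → ℤˣ

/-- The metric `2 ^ (-min {n ≥ 1 : ε_n ≠ η_n})`; `PiNat.firstDiff` is the least index `i = n - 1`
at which the two sequences differ. -/
noncomputable instance : Dist Omega :=
  ⟨fun x y => if x = y then 0 else (1 / 2 : ℝ) ^ (PiNat.firstDiff x.val y.val + 1)⟩

lemma dist_def' (x y : Omega) :
    dist x y = if x = y then 0 else (1 / 2 : ℝ) ^ (PiNat.firstDiff x.val y.val + 1) := rfl

lemma val_ne {x y : Omega} (h : x ≠ y) : x.val ≠ y.val := fun h' => h (Omega.ext h')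

noncomputable instance : MetricSpace Omega where
  dist_self x := by rw [dist_def', if_pos rfl]
  dist_comm x y := by
    rw [dist_def', dist_def', PiNat.firstDiff_comm]
    simp only [eq_comm]
  dist_triangle x y z := by
    rw [dist_def', dist_def', dist_def']
    by_cases hxz : x = z
    · rw [if_pos hxz]
      positivity
    rw [if_neg hxz]
    by_cases hxy : x = y
    · subst hxy
      simp [hxz]
    by_cases hyz : y = z
    · subst hyz
      simp [hxz]
    rw [if_neg hxy, if_neg hyz]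
    have h := PiNat.min_firstDiff_le x.val y.val z.val (val_ne hxz)
    rcases min_le_iff.1 h with h | h
    · have := pow_le_pow_of_le_one (show (0 : ℝ) ≤ 1 / 2 by norm_num) (by norm_num)
        (Nat.succ_le_succ h)
      have h2 : (0 : ℝ) < (1 / 2) ^ (PiNat.firstDiff y.val z.val + 1) := by positivity
      simp only [Nat.succ_eq_add_one] at this
      linarith
    · have := pow_le_pow_of_le_one (show (0 : ℝ) ≤ 1 / 2 by norm_num) (by norm_num)
        (Nat.succ_le_succ h)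
      have h2 : (0 : ℝ) < (1 / 2) ^ (PiNat.firstDiff x.val y.val + 1) := by positivity
      simp only [Nat.succ_eq_add_one] at this
      linarith
  eq_of_dist_eq_zero {x y} h := by
    rw [dist_def'] at h
    by_contra hne
    rw [if_neg hne] at h
    have : (0 : ℝ) < (1 / 2) ^ (PiNat.firstDiff x.val y.val + 1) := by positivity
    linarith

/-- The term `a_n = (n ^ (-α₁), n ^ (-α₂))` with `n = i + 1`. -/
noncomputable def seriesTerm (α₁ α₂ : ℝ) (i : ℕ) : ℝ × ℝ :=
  (((i : ℝ) + 1) ^ (-α₁), ((i : ℝ) + 1) ^ (-α₂))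

/-- The partial sum `∑_{n = 1}^{N} ε_n a_n`. -/
noncomputable def partialSum (α₁ α₂ : ℝ) (x : Omega) (N : ℕ) : ℝ × ℝ :=
  ∑ i ∈ Finset.range N, ((x.val i : ℤ) : ℝ) • seriesTerm α₁ α₂ i

/-- The set `E(L)` of all sign sequences for which the series converges to `L`. -/
def E (α₁ α₂ : ℝ) (L : ℝ × ℝ) : Set Omega :=
  {x | Tendsto (partialSum α₁ α₂ x) atTop (𝓝 L)}

/-! ### The upper bound -/

lemma dist_le_of_agree {x y : Omega} {n : ℕ} (h : ∀ i, i < n → x.val i = y.val i) :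
    dist x y ≤ (1 / 2 : ℝ) ^ (n + 1) := by
  rw [dist_def']
  split_ifs with hxy
  · positivity
  · apply pow_le_pow_of_le_one (by norm_num) (by norm_num)
    have : n ≤ PiNat.firstDiff x.val y.val := by
      by_contra hlt
      push Not at hlt
      exact PiNat.apply_firstDiff_ne (val_ne hxy) (h _ hlt)
    omega

lemma dimH_univ_le : dimH (Set.univ : Set Omega) ≤ 1 := by
  borelize Omega
  have h1 : μH[(1 : ℝ≥0)] (Set.univ : Set Omega) ≤ 1 := by
    have h2 := MeasureTheory.Measure.hausdorffMeasure_le_liminf_sum (X := Omega)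
      ((1 : ℝ≥0) : ℝ) Set.univ
      (l := atTop) (ι := fun n : ℕ => (Fin n → ℤˣ)) (fun n => ENNReal.ofReal ((1 / 2 : ℝ) ^ (n + 1)))
      ?_ (fun n s => {x : Omega | ∀ i : Fin n, x.val i = s i}) ?_ ?_
    · refine h2.trans ?_
      refine liminf_le_of_le (by isBoundedDefault) ?_
      intro b hb
      obtain ⟨n, hn⟩ := hb.exists
      refine hn.trans ?_
      calc ∑ s : Fin n → ℤˣ, Metric.ediam {x : Omega | ∀ i : Fin n, x.val i = s i} ^
            (((1 : ℝ≥0) : ℝ)) ≤ ∑ s : Fin n → ℤˣ, ENNReal.ofReal ((1 / 2 : ℝ) ^ (n + 1)) := by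
            apply Finset.sum_le_sum
            intro s _
            simp only [NNReal.coe_one, ENNReal.rpow_one]
            apply Metric.ediam_le
            intro x hx y hy
            rw [edist_dist]
            apply ENNReal.ofReal_le_ofReal
            apply dist_le_of_agree
            intro i hi
            rw [hx ⟨i, hi⟩, hy ⟨i, hi⟩]
        _ = (2 ^ n : ℕ) * ENNReal.ofReal ((1 / 2 : ℝ) ^ (n + 1)) := by
            rw [Finset.sum_const, nsmul_eq_mul]
            congr 1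
            simp
        _ = ENNReal.ofReal ((2 : ℝ) ^ n * (1 / 2 : ℝ) ^ (n + 1)) := by
            rw [ENNReal.ofReal_mul (by positivity)]
            congr 1
            rw [show ((2 : ℝ) ^ n) = (((2 ^ n : ℕ)) : ℝ) by push_cast; rfl, ENNReal.ofReal_natCast]
        _ ≤ 1 := by
            rw [ENNReal.ofReal_le_one]
            rw [pow_succ, ← mul_assoc, ← mul_pow]
            norm_num
    · have h3 : Tendsto (fun n : ℕ => (1 / 2 : ℝ) ^ (n + 1)) atTop (𝓝 0) :=
        (tendsto_pow_atTop_nhds_zero_of_lt_one (by norm_num) (by norm_num)).comp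
          (tendsto_add_atTop_nat 1)
      have h4 := ENNReal.tendsto_ofReal h3
      simpa using h4
    · refine Eventually.of_forall fun n s => ?_
      apply Metric.ediam_le
      intro x hx y hy
      rw [edist_dist]
      apply ENNReal.ofReal_le_ofReal
      apply dist_le_of_agree
      intro i hi
      rw [hx ⟨i, hi⟩, hy ⟨i, hi⟩]
    · refine Eventually.of_forall fun n x _ => ?_
      exact Set.mem_iUnion.2 ⟨fun i => x.val i, fun i => rfl⟩
  have h5 := dimH_le_of_hausdorffMeasure_ne_top (X := Omega) (s := Set.univ) (d := 1)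
    (ne_top_of_le_ne_top ENNReal.one_ne_top h1)
  simpa using h5

/-! ### The coding map and its Hölder property -/

/-- reading the block number `i` of a sign sequence -/
def blk (j : ℕ) (x : Omega) (i : ℕ) (l : Fin (2 * j)) : ℤˣ := x.val ((2 * j + 1) * i + l)

lemma blk_eq {j : ℕ} {x y : Omega} {i m : ℕ} (hi : i < m / (2 * j + 1))
    (h : ∀ k, k < m → x.val k = y.val k) : blk j x i = blk j y i := by
  funext l
  apply h
  have h1 : (2 * j + 1) * (i + 1) ≤ (2 * j + 1) * (m / (2 * j + 1)) :=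
    Nat.mul_le_mul_left _ hi
  have h2 : (2 * j + 1) * (m / (2 * j + 1)) ≤ m := Nat.mul_div_le _ _
  have := l.2
  rw [Nat.mul_succ] at h1
  omega

/-- the exponent `log M / (q log 2)` -/
noncomputable def expo (j : ℕ) : ℝ :=
  Real.log (Nat.centralBinom j) / ((2 * j + 1) * Real.log 2)

lemma one_lt_centralBinom {j : ℕ} (hj : 0 < j) : 1 < Nat.centralBinom j := by
  have := Nat.two_dvd_centralBinom_of_one_le hj
  have h2 := Nat.centralBinom_pos j
  exact lt_of_lt_of_le (by norm_num) (Nat.le_of_dvd h2 this)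

lemma expo_pos {j : ℕ} (hj : 0 < j) : 0 < expo j := by
  unfold expo
  have h1 : (1 : ℝ) < Nat.centralBinom j := by exact_mod_cast one_lt_centralBinom hj
  have h2 := Real.log_pos h1
  have h3 := Real.log_pos (show (1 : ℝ) < 2 by norm_num)
  positivity

lemma pow_bound {j : ℕ} (hj : 0 < j) (m : ℕ) :
    ((Nat.centralBinom j : ℝ)⁻¹) ^ (m / (2 * j + 1)) ≤
      (Nat.centralBinom j : ℝ) * ((1 / 2 : ℝ) ^ (m + 1)) ^ expo j := by
  set M : ℝ := (Nat.centralBinom j : ℝ) with hM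
  have h1 : (1 : ℝ) < M := by
    rw [hM]
    exact_mod_cast one_lt_centralBinom hj
  have hlog2 := Real.log_pos (show (1 : ℝ) < 2 by norm_num)
  have hlogM := Real.log_pos h1
  have hq : (0 : ℝ) < 2 * j + 1 := by positivity
  have hpos : (0 : ℝ) < (1 / 2 : ℝ) ^ (m + 1) := by positivity
  have e1 : ((1 / 2 : ℝ) ^ (m + 1)) ^ expo j = Real.exp (-((m + 1) / (2 * j + 1)) * Real.log M) := by
    rw [Real.rpow_def_of_pos hpos, Real.log_pow, Real.log_div (by norm_num) (by norm_num),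
      Real.log_one]
    congr 1
    unfold expo
    rw [← hM]
    push_cast
    field_simp
    ring
  have e2 : (M⁻¹) ^ (m / (2 * j + 1)) = Real.exp (-((m / (2 * j + 1) : ℕ) : ℝ) * Real.log M) := by
    rw [← Real.rpow_natCast, Real.rpow_def_of_pos (by positivity), Real.log_inv]
    congr 1
    ring
  have e3 : M = Real.exp (Real.log M) := (Real.exp_log (by positivity)).symm
  rw [e1, e2]
  nth_rewrite 2 [e3]
  rw [← Real.exp_add]
  apply Real.exp_le_exp.2
  have h4 : ((m : ℝ) + 1) / (2 * j + 1) ≤ ((m / (2 * j + 1) : ℕ) : ℝ) + 1 := by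
    rw [div_le_iff₀ hq]
    have h5 : m < (2 * j + 1) * (m / (2 * j + 1) + 1) := by
      rw [Nat.mul_succ]
      have := Nat.div_add_mod m (2 * j + 1)
      have := Nat.mod_lt m (show 0 < 2 * j + 1 by omega)
      omega
    have h6 : m + 1 ≤ (2 * j + 1) * (m / (2 * j + 1) + 1) := h5
    have h7 : ((m + 1 : ℕ) : ℝ) ≤ (((2 * j + 1) * (m / (2 * j + 1) + 1) : ℕ) : ℝ) := by
      exact_mod_cast h6
    push_cast at h7 ⊢
    linarith
  nlinarith

/-- Lower bound for the dimension of `E(L)` from blocks of length `2 * j + 1`. -/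
lemma expo_le_dimH {α₁ α₂ : ℝ} {L : ℝ × ℝ} {j : ℕ} (hj : 0 < j)
    (enc : Fin (Nat.centralBinom j) → (Fin (2 * j) → ℤˣ)) (henc : Function.Injective enc)
    (hE : ∀ δ : ℕ → Fin (Nat.centralBinom j), ∃ x ∈ E α₁ α₂ L, ∀ i, blk j x i = enc (δ i)) :
    ENNReal.ofReal (expo j) ≤ dimH (E α₁ α₂ L) := by
  have hM := one_lt_centralBinom hj
  have : NeZero (Nat.centralBinom j) := ⟨by omega⟩
  set F : Omega → ℝ := fun x => Real.ofDigits (fun i => Function.invFun enc (blk j x i)) with hF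
  have hdist : ∀ x y, dist (F x) (F y) ≤ (Nat.centralBinom j : ℝ) * dist x y ^ expo j := by
    intro x y
    by_cases hxy : x = y
    · subst hxy
      rw [dist_self]
      positivity
    · rw [dist_def' x y, if_neg hxy]
      refine le_trans ?_ (pow_bound hj _)
      rw [Real.dist_eq, inv_pow]
      apply Real.abs_ofDigits_sub_ofDigits_le
      intro i hi
      rw [blk_eq hi]
      intro k hk
      exact PiNat.apply_eq_of_lt_firstDiff hk
  have hexp := expo_pos hj
  have hhol : HolderOnWith (Real.toNNReal (Nat.centralBinom j : ℝ)) (Real.toNNReal (expo j)) F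
      (E α₁ α₂ L) := by
    intro x _ y _
    rw [edist_dist, edist_dist, Real.coe_toNNReal _ hexp.le,
      ENNReal.ofReal_rpow_of_nonneg dist_nonneg hexp.le]
    change _ ≤ ENNReal.ofReal _ * _
    rw [← ENNReal.ofReal_mul (by positivity)]
    exact ENNReal.ofReal_le_ofReal (hdist x y)
  have h1 := hhol.dimH_image_le (Real.toNNReal_pos.2 hexp)
  have h2 : Set.Ico (0 : ℝ) 1 ⊆ F '' (E α₁ α₂ L) := by
    intro t ht
    obtain ⟨x, hx, hx2⟩ := hE (Real.digits t (Nat.centralBinom j))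
    refine ⟨x, hx, ?_⟩
    rw [hF]
    simp only [hx2, Function.leftInverse_invFun henc (_)]
    exact Real.ofDigits_digits hM ht
  have h3 : (1 : ℝ≥0∞) ≤ dimH (F '' (E α₁ α₂ L)) := by
    refine le_trans ?_ (dimH_mono h2)
    rw [Real.dimH_of_nonempty_interior]
    · simp
    · rw [interior_Ico]
      exact ⟨1 / 2, by norm_num, by norm_num⟩
  have h4 := h3.trans h1
  have h5 : ((Real.toNNReal (expo j) : ℝ≥0) : ℝ≥0∞) ≠ 0 := by
    simpa using hexp
  rw [ENNReal.le_div_iff_mul_le (Or.inl h5) (Or.inl ENNReal.coe_ne_top), one_mul] at h4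
  exact h4

/-! ### Points of `E(L)` with prescribed blocks -/

lemma signs_of_ne {α₁ α₂ : ℝ} (h₁ : 0 < α₁) (h₁' : α₁ ≤ 1) (h₂ : 0 < α₂) (h₂' : α₂ ≤ 1)
    (hne : α₁ ≠ α₂) (u₀ v₀ : ℝ) : ∃ ε : ℕ → ℤˣ,
    Tendsto (fun n => u₀ + ∑ i ∈ Finset.range n, ((ε i : ℤ) : ℝ) * ((i : ℝ) + 1) ^ (-α₁))
      atTop (𝓝 0) ∧
    Tendsto (fun n => v₀ + ∑ i ∈ Finset.range n, ((ε i : ℤ) : ℝ) * ((i : ℝ) + 1) ^ (-α₂))
      atTop (𝓝 0) := by
  rcases lt_or_gt_of_ne hne with h | h
  · exact signs_of_lt α₁ α₂ h₁ h h₂' u₀ v₀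
  · obtain ⟨ε, h1, h2⟩ := signs_of_lt α₂ α₁ h₂ h h₁' v₀ u₀
    exact ⟨ε, h2, h1⟩

lemma tendsto_mk {α : ℝ} (hα : 0 < α) {j : ℕ} (w : ℕ → Fin (2 * j) → ℤˣ)
    (hw : ∀ i, ∑ l, ((w i l : ℤ) : ℝ) = 0) (L T : ℝ)
    (hT : HasSum (fun i => ∑ l : Fin (2 * j), ((w i l : ℤ) : ℝ) *
      ((((2 * j + 1) * i + l : ℕ) : ℝ) + 1) ^ (-α)) T) (c : ℕ → ℤˣ)
    (hc : Tendsto (fun n => (2 * (j : ℝ) + 1) ^ α * (T - L) +
      ∑ i ∈ Finset.range n, ((c i : ℤ) : ℝ) * ((i : ℝ) + 1) ^ (-α)) atTop (𝓝 0)) :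
    Tendsto (fun N => ∑ n ∈ Finset.range N, ((mk j w c n : ℤ) : ℝ) * ((n : ℝ) + 1) ^ (-α))
      atTop (𝓝 L) := by
  have habs : ∀ e : ℤˣ, |((e : ℤ) : ℝ)| = 1 := by
    intro e
    rcases Int.units_eq_one_or e with h | h <;> simp [h]
  have hq : (0 : ℝ) < 2 * (j : ℝ) + 1 := by positivity
  refine tendsto_of_blocks _ (fun n => ((n : ℝ) + 1) ^ (-α)) ?_ (rp_tendsto hα)
    (2 * j + 1) (by omega) L ?_
  · intro n
    rw [abs_mul, habs, one_mul, abs_of_pos (rp_pos α n)]
  · simp_rw [sum_mk j w c (fun n => ((n : ℝ) + 1) ^ (-α))]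
    have h1 := hT.tendsto_sum_nat
    have h2 := hc.const_mul ((2 * (j : ℝ) + 1) ^ (-α))
    have h3 := h1.add h2
    rw [mul_zero, add_zero] at h3
    have h4 : Tendsto (fun _ : ℕ => L - T) atTop (𝓝 (L - T)) := tendsto_const_nhds
    have h5 := h3.add h4
    rw [show T + (L - T) = L by ring] at h5
    refine h5.congr fun K => ?_
    have h6 : ∀ i : ℕ, ((((2 * j + 1) * i + 2 * j : ℕ) : ℝ) + 1) ^ (-α) =
        (2 * (j : ℝ) + 1) ^ (-α) * ((i : ℝ) + 1) ^ (-α) := by
      intro i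
      rw [← Real.mul_rpow hq.le (by positivity)]
      congr 1
      push_cast
      ring
    have h7 : (2 * (j : ℝ) + 1) ^ (-α) * (2 * (j : ℝ) + 1) ^ α = 1 := by
      rw [← Real.rpow_add hq]
      simp
    have h8 : ∑ i ∈ Finset.range K, ((c i : ℤ) : ℝ) *
        ((((2 * j + 1) * i + 2 * j : ℕ) : ℝ) + 1) ^ (-α) =
        (2 * (j : ℝ) + 1) ^ (-α) * ∑ i ∈ Finset.range K, ((c i : ℤ) : ℝ) * ((i : ℝ) + 1) ^ (-α) := by
      rw [Finset.mul_sum]
      refine Finset.sum_congr rfl fun i _ => ?_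
      rw [h6]
      ring
    rw [h8, mul_add, ← mul_assoc, h7]
    ring

lemma exists_point {α₁ α₂ : ℝ} (h₁ : 0 < α₁) (h₁' : α₁ ≤ 1) (h₂ : 0 < α₂) (h₂' : α₂ ≤ 1)
    (hne : α₁ ≠ α₂) (L : ℝ × ℝ) {j : ℕ} (w : ℕ → Fin (2 * j) → ℤˣ)
    (hw : ∀ i, ∑ l, ((w i l : ℤ) : ℝ) = 0) : ∃ x ∈ E α₁ α₂ L, ∀ i, blk j x i = w i := by
  have hs : ∀ α : ℝ, 0 < α → Summable (fun i => ∑ l : Fin (2 * j), ((w i l : ℤ) : ℝ) *
      ((((2 * j + 1) * i + l : ℕ) : ℝ) + 1) ^ (-α)) := by
    intro α hα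
    exact summable_blocks j w hw (fun n => ((n : ℝ) + 1) ^ (-α)) (rp_strictAnti hα).antitone
      (fun n => (rp_pos α n).le)
  obtain ⟨T₁, hT₁⟩ := hs α₁ h₁
  obtain ⟨T₂, hT₂⟩ := hs α₂ h₂
  obtain ⟨c, hc₁, hc₂⟩ := signs_of_ne h₁ h₁' h₂ h₂' hne ((2 * (j : ℝ) + 1) ^ α₁ * (T₁ - L.1))
    ((2 * (j : ℝ) + 1) ^ α₂ * (T₂ - L.2))
  refine ⟨⟨mk j w c⟩, ?_, ?_⟩
  · have e1 := tendsto_mk h₁ w hw L.1 T₁ hT₁ c hc₁
    have e2 := tendsto_mk h₂ w hw L.2 T₂ hT₂ c hc₂
    have e3 := e1.prodMk_nhds e2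
    refine e3.congr fun N => ?_
    unfold partialSum seriesTerm
    simp only [Prod.smul_mk, smul_eq_mul]
    rw [Prod.ext_iff]
    constructor
    · rw [Prod.fst_sum]
    · rw [Prod.snd_sum]
  · intro i
    funext l
    exact mk_lt j w c i l

/-! ### Conclusion -/

lemma expo_ge {j : ℕ} (hj : 0 < j) :
    1 - (((2 * j + 1 : ℕ) : ℝ))⁻¹ - (Real.log ((2 * j + 1 : ℕ) : ℝ) / ((2 * j + 1 : ℕ) : ℝ)) /
      Real.log 2 ≤ expo j := by
  have hlog2 := Real.log_pos (show (1 : ℝ) < 2 by norm_num)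
  have hq : (0 : ℝ) < 2 * j + 1 := by positivity
  have h1 := Nat.four_pow_le_two_mul_self_mul_centralBinom j hj
  have h2 : ((4 : ℝ) ^ j) ≤ 2 * j * Nat.centralBinom j := by exact_mod_cast h1
  have hcb : (0 : ℝ) < Nat.centralBinom j := by exact_mod_cast Nat.centralBinom_pos j
  have h3 := Real.log_le_log (by positivity) h2
  have hj' : (0 : ℝ) < j := by exact_mod_cast hj
  rw [Real.log_mul (by positivity) (by positivity), Real.log_pow,
    show (4 : ℝ) = 2 ^ 2 by norm_num, Real.log_pow] at h3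
  have h4 : Real.log (2 * j) ≤ Real.log (2 * j + 1) := Real.log_le_log (by positivity) (by linarith)
  unfold expo
  push_cast at h3 ⊢
  rw [le_div_iff₀ (by positivity)]
  have h5 : (1 - (2 * (j : ℝ) + 1)⁻¹ - Real.log (2 * j + 1) / (2 * j + 1) / Real.log 2) *
      ((2 * j + 1) * Real.log 2) = 2 * j * Real.log 2 - Real.log (2 * j + 1) := by
    field_simp
    ring
  rw [h5]
  linarith

lemma tendsto_lower : Tendsto (fun j : ℕ => ENNReal.ofReal (1 - (((2 * j + 1 : ℕ) : ℝ))⁻¹ -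
    (Real.log ((2 * j + 1 : ℕ) : ℝ) / ((2 * j + 1 : ℕ) : ℝ)) / Real.log 2)) atTop (𝓝 1) := by
  have h0 : Tendsto (fun j : ℕ => ((2 * j + 1 : ℕ) : ℝ)) atTop atTop := by
    apply tendsto_natCast_atTop_atTop.comp
    exact tendsto_atTop_mono (fun j => (by simp only [id]; omega : id j ≤ 2 * j + 1)) tendsto_id
  have h1 : Tendsto (fun x : ℝ => Real.log x / x) atTop (𝓝 0) :=
    Real.isLittleO_log_id_atTop.tendsto_div_nhds_zero
  have h2 := (tendsto_inv_atTop_zero.comp h0)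
  have h3 := (h1.comp h0).div_const (Real.log 2)
  have h4 := (h2.const_sub 1).sub h3
  have h5 := ENNReal.tendsto_ofReal h4
  simpa using h5

/-- For all distinct `α₁, α₂ ∈ (0, 1]` and every `L` in the plane, the set `E(L)` of sign sequences
for which `∑ ε_n (n ^ (-α₁), n ^ (-α₂))` converges to `L` has Hausdorff dimension `1`. -/
theorem result (α₁ α₂ : ℝ) (h₁ : 0 < α₁) (h₁' : α₁ ≤ 1) (h₂ : 0 < α₂) (h₂' : α₂ ≤ 1)
    (hne : α₁ ≠ α₂) (L : ℝ × ℝ) : dimH (E α₁ α₂ L) = 1 := by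
  apply le_antisymm
  · exact (dimH_mono (Set.subset_univ _)).trans dimH_univ_le
  · refine le_of_tendsto tendsto_lower ?_
    filter_upwards [eventually_gt_atTop 0] with j hj
    refine (ENNReal.ofReal_le_ofReal (expo_ge hj)).trans ?_
    obtain ⟨enc, henc, hsum⟩ := exists_enc j
    refine expo_le_dimH hj enc henc ?_
    intro δ
    exact exists_point h₁ h₁' h₂ h₂' hne L (fun i => enc (δ i)) (fun i => hsum (δ i))

end Pool.Agent.Results.MP_035d7c_an.FullDim
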